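import Pool.Agent.PVD.StmtsM1

/-! # Squad PVD, block M1, row N_SLO: lower bound of the normalised logarithm -/

set_option autoImplicit false

open MeasureTheory Filter Topology

namespace Pool.Agent.PVD.M.H53

open Pool.Agent.PVD.L Pool.Agent.PVD.M

theorem nd_pos (n j : ℕ) : 0 < nd n j := by
  unfold nd
  positivity

theorem nd_le {n j : ℕ} (h : j < n) : nd n j ≤ 1 := by
  unfold nd
  rw [div_le_one (by positivity)]
  have h1 : ((j + 1 : ℕ) : ℝ) ≤ (n : ℝ) := by exact_mod_cast h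
  push_cast at h1
  linarith

theorem slo (lba : LbaStmt) (hom : HomStmt) (blf : BlfStmt) : SloStmt := by
  intro e he he2 A m hA hP δ hδ hδ1
  obtain ⟨-, -, -, -, b5, b6, b7, b8⟩ := blf e he he2 m
  set B : ℝ := ∑ i ∈ A, (m i)⁻¹ with hB
  have hm : ∀ i ∈ A, 0 < m i := hP.1
  have hB0 : 0 ≤ B := Finset.sum_nonneg fun i hi => (inv_pos.2 (hm i hi)).le
  have hle : ∀ i ∈ A, (m i)⁻¹ ≤ B := fun i hi =>
    Finset.single_le_sum (f := fun i => (m i)⁻¹) (fun i hi => (inv_pos.2 (hm i hi)).le) hi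
  obtain ⟨N0, hN0⟩ := exists_nat_gt (2 * ((A.card : ℝ) * B ^ 2 + 1) / δ ^ 2)
  refine ⟨N0 + 1, Nat.succ_pos _, fun n hn h hh => ?_⟩
  have hn0 : 0 < n := by omega
  have hnR : (0 : ℝ) < n := Nat.cast_pos.2 hn0
  have hfpos : ∀ j : Fin n, 0 < fm e m (nd n j) := by
    intro j
    rcases hA with h1 | h1
    · subst h1
      exact b5 hP _ (nd_pos n j).le (nd_le j.2)
    · subst h1
      exact b6 hP _ (nd_pos n j) (nd_le j.2)
  have hfA : ∀ j : Fin n, fA A (fun (i : Fin 4) (j : Fin n) => cl e i (nd n j)) m j =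
      fm e m (nd n j) := fun j => b7 A hP _
  have key := lba n A (fun (i : Fin 4) (j : Fin n) => cl e i (nd n j)) m B δ hn0 hδ hδ1 hB0 hm
    (fun i _ j => cl_nonneg he (by linarith) (nd_pos n j).le (nd_le j.2) i)
    (fun i hi j => by
      rw [hfA]
      exact (b8 A hP i hi _ (nd_pos n j).le (nd_le j.2)).trans
        (mul_le_mul_of_nonneg_right (hle i hi) (hfpos j).le))
    (fun j => by rw [hfA]; exact hfpos j)
    (by
      have h1 : (N0 : ℝ) ≤ n := by exact_mod_cast (by omega : N0 ≤ n)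
      have h2 := hN0.trans_le h1
      rw [div_lt_iff₀ (by positivity)] at h2
      exact h2.le)
  simp only [hfA] at key
  have hmono := (hom n e he he2 A hA
    (fun i => (n : ℝ)⁻¹ * (∑ j : Fin n, cl e i (nd n j) / fm e m (nd n j)) + δ)).2 h
    (fun i hi => by
      have h1 := hh i hi
      rw [Finset.sum_range (fun j : ℕ => cl e i (nd n j) / fm e m (nd n j))] at h1
      exact h1)
  have hVA : VA n e A (fun i => (n : ℝ)⁻¹ * (∑ j : Fin n, cl e i (nd n j) / fm e m (nd n j)) + δ)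
      = (volume (Po A (fun (i : Fin 4) (j : Fin n) => cl e i (nd n j)) fun i =>
        (n : ℝ)⁻¹ * (∑ j : Fin n, cl e i (nd n j) / fm e m (nd n j)) + δ)).toReal := rfl
  rw [hVA] at hmono
  have hprod : 0 < ∏ j : Fin n, ((n : ℝ) * fm e m (nd n j))⁻¹ :=
    Finset.prod_pos fun j _ => inv_pos.2 (mul_pos hnR (hfpos j))
  have hL : 0 < 1 / 2 * (Real.exp (n * (1 - δ)) * ∏ j : Fin n, ((n : ℝ) * fm e m (nd n j))⁻¹) :=
    mul_pos (by norm_num) (mul_pos (Real.exp_pos _) hprod)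
  have hle2 := key.trans hmono
  have hpos : 0 < VA n e A h := hL.trans_le hle2
  refine ⟨hpos, ?_⟩
  have hpow : (0 : ℝ) < (n : ℝ) ^ n := pow_pos hnR n
  have hlog : Real.log ((n : ℝ) ^ n * (1 / 2 * (Real.exp (n * (1 - δ)) *
      ∏ j : Fin n, ((n : ℝ) * fm e m (nd n j))⁻¹))) =
      -Real.log 2 + n * (1 - δ) - ∑ j : Fin n, Real.log (fm e m (nd n j)) := by
    have h1 : ∏ j : Fin n, ((n : ℝ) * fm e m (nd n j))⁻¹ =
        ((n : ℝ) ^ n)⁻¹ * (∏ j : Fin n, fm e m (nd n j))⁻¹ := by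
      rw [Finset.prod_inv_distrib, Finset.prod_mul_distrib, Finset.prod_const, Finset.card_univ,
        Fintype.card_fin, mul_inv]
    have h2 : (n : ℝ) ^ n * (1 / 2 * (Real.exp (n * (1 - δ)) *
        ∏ j : Fin n, ((n : ℝ) * fm e m (nd n j))⁻¹)) =
        2⁻¹ * Real.exp (n * (1 - δ)) * (∏ j : Fin n, fm e m (nd n j))⁻¹ := by
      rw [h1]
      field_simp
    have h3 : 0 < ∏ j : Fin n, fm e m (nd n j) := Finset.prod_pos fun j _ => hfpos j
    rw [h2, Real.log_mul (by positivity) (by positivity), Real.log_mul (by norm_num)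
      (Real.exp_pos _).ne', Real.log_exp, Real.log_inv, Real.log_inv,
      Real.log_prod (fun j _ => (hfpos j).ne')]
    ring
  have hlogle : Real.log ((n : ℝ) ^ n * (1 / 2 * (Real.exp (n * (1 - δ)) *
      ∏ j : Fin n, ((n : ℝ) * fm e m (nd n j))⁻¹))) ≤ Real.log ((n : ℝ) ^ n * VA n e A h) :=
    Real.log_le_log (mul_pos hpow hL) (mul_le_mul_of_nonneg_left hle2 hpow.le)
  rw [hlog] at hlogle
  unfold SA
  rw [Finset.sum_range (fun j : ℕ => Real.log (fm e m (nd n j)))]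
  have h4 : 1 - δ - Real.log 2 / n - (n : ℝ)⁻¹ * ∑ j : Fin n, Real.log (fm e m (nd n j)) =
      (n : ℝ)⁻¹ * (-Real.log 2 + n * (1 - δ) - ∑ j : Fin n, Real.log (fm e m (nd n j))) := by
    field_simp
    ring
  rw [h4]
  exact mul_le_mul_of_nonneg_left hlogle (inv_pos.2 hnR).le

end Pool.Agent.PVD.M.H53
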